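import Pool.Agent.Work.MP_db9399_sw.Mach
import Pool.Agent.Work.MP_db9399_ot_helper21.P0ALL

/-! # MP_db9399, PHASE 2 (short spots): block P0ALL2, the rounds of the colours `e x`; only vertices
outside `mM` are missed (helper46; `step2` is a copy of `step` of ot_helper21/P0ALL.lean with one
more conclusion) -/

set_option autoImplicit false

namespace Pool.Agent.Work.MP_db9399_sw.helper46

open Finset Classical
open Pool.Agent.Work.MP_db9399_all (nb)
open Pool.Agent.Work.MP_db9399_dn (IsMat)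
open Pool.Agent.Work.MP_db9399_bg (den cl LabP Good PN IsPat en enP Sep Near REnv r0 Deep Spr Ok
  Lbl c3f c3 HPre Ix mem_nb mem_cl mem_PN den_nonneg natCast_inj natCast_eq_neg c3f_inj mem_c3
  two_mul_inj)
open Pool.Agent.Work.MP_db9399_lh (Cr Lh ce su kp io sp pt cr cy rf rx rr tj ty inM rP rR np nr eP
  pr qr qe fq f0 ft Vq EndSX Vd UW VCol Rr Rf Jk Ub P0R PeR bb den_bb mem_bb mem_cy den_rr
  card_core card_zmod)
open Pool.Agent.Work.MP_db9399_lh.helper21 (In2 F0 F1 St usd hdet In2_c3 In2_symm card_ix deg_bx_le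
  le_deg_bx den_opt den_junk den_sub mem_rP mem_PNr mem_PNr' card_le_five Spr_empty)
open Pool.Agent.Work.MP_db9399_ot (BH Cls Sit NDec UPar Lft)
open Pool.Agent.Work.MP_db9399_ot.helper21 (renv)

universe u

section defs
variable {V : Type u} [Fintype V] {l m r K K1 S : ℕ} {w n : ℕ}

/-- one more round -/
theorem step2 {k W1 : ℕ} {g : ℝ} {G : SimpleGraph V} {d : ℕ} {UH : Finset V}
    {c0 tu : V → Fin k} {lab : V → Lh l m r K K1 S} {e : Ix m w → Fin k}
    {τ : Fin w → Option (ZMod 3)} {ρ : Fin w → ZMod 3} {e1 : Fin W1 → Fin k} {tp : V → ZMod 3}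
    {c : V → Fin k} {wv : V → Fin k → V}
    {Nd : Ix m w → SimpleGraph V} {δ : ℝ} {dd : ℕ} (hR1 : OneRound2 g δ G d dd lab)
    (hren : ∀ (X : Finset (Ix m w)) (M : Ix m w → SimpleGraph V) (O : Ix m w → Finset V),
      St g G d UH c0 tu lab e τ ρ e1 tp c wv Nd X M O → ∀ x,
      REnv G (F1 G UH lab τ Nd M x) (qr l m S (τ x.2.2) d) δ lab
        (rP l r K K1 S x.1 x.2.1 (τ x.2.2)) (rR l S (τ x.2.2))
        (Ub UH c0 tu lab e τ e1 tp c wv Nd x) (Jk UH lab τ Nd x))
    (hτρ : ∀ s, τ s ≠ some (ρ s))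
    (hmw : ∀ i, m * (univ.filter (fun s => ρ s = i)).card * (3 * (2 * m + 1)) ≤ dd)
    (X : Finset (Ix m w)) :
    ∃ (M : Ix m w → SimpleGraph V) (O : Ix m w → Finset V),
      St g G d UH c0 tu lab e τ ρ e1 tp c wv Nd X M O ∧ ∀ x, ∀ v ∈ O x, ¬ mM (lab v) := by
  induction X using Finset.induction_on with
  | empty =>
    refine ⟨fun _ => ⊥, fun _ => ∅, ⟨?_, ?_, ?_, ?_, ?_, ?_, ?_, ?_⟩,
      fun x v hv => absurd hv (notMem_empty _)⟩
    · intro x _
      rfl
    · intro x v v' h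
      exact absurd h (by simp)
    · intro x v
      simp [nb]
    · intro x x' _ v v' h
      exact absurd h (by simp)
    · intro x hx
      exact absurd hx (notMem_empty _)
    · intro x v hv
      exact absurd hv (notMem_empty _)
    · intro x x' _
      exact disjoint_empty_left _
    · intro x
      exact Spr_empty _ _ _ _ _
  | insert x X hxS ih =>
    obtain ⟨M, O, hS, hmM⟩ := ih
    have hren' := hren X M O hS x
    set T : Finset (Fin m × Fin w) := univ.filter (fun y => ρ y.2 = ρ x.2.2) with hT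
    have hTc : T.card = m * (univ.filter (fun s => ρ s = ρ x.2.2)).card := by
      have h1 : T = (univ : Finset (Fin m)) ×ˢ (univ.filter (fun s => ρ s = ρ x.2.2)) := by
        ext y
        simp [hT]
      rw [h1, card_product, card_univ, Fintype.card_fin]
    have hTm : ∀ y ∈ T, ρ y.2 = ρ x.2.2 := by
      intro y hy
      rw [hT, mem_filter] at hy
      exact hy.2
    set Oi : ℕ → Finset V := fun i =>
      if h : i < T.card then O (x.1, (T.equivFin.symm ⟨i, h⟩).1) else ∅
      with hOi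
    have hOi2 : ∀ y : Fin m × Fin w, ∀ hy : y ∈ T, Oi (T.equivFin ⟨y, hy⟩ : ℕ) = O (x.1, y) := by
      intro y hy
      simp only [hOi]
      rw [dif_pos (T.equivFin ⟨y, hy⟩).2]
      simp
    obtain ⟨M', O', hM1, hM2, hM3, hM4, hO1, hO2, hO3⟩ := hR1 (τ x.2.2) (ρ x.2.2)
      (F1 G UH lab τ Nd M x) x.1 x.2.1
      (Ub UH c0 tu lab e τ e1 tp c wv Nd x) (Jk UH lab τ Nd x) T.card Oi (hτρ x.2.2) hren'
      (by rw [hTc]; exact hmw _) (by
        intro i hi
        simp only [hOi]
        rw [dif_pos hi]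
        have h1 := hTm _ (T.equivFin.symm ⟨i, hi⟩).2
        have h2 := hS.spr (x.1, (T.equivFin.symm ⟨i, hi⟩).1)
        rw [← h1]
        exact h2)
    have hOx : ∀ v ∈ O', v ∉ UH := by
      intro v hv
      have h1 := hO1 hv
      rw [Ub, mem_filter] at h1
      rcases h1.2 with h | h
      · exact h.1
      · rw [Jk, mem_filter] at h
        exact h.2.1
    have hOd : ∀ x', x' ≠ x → Disjoint (O x') O' := by
      intro x' hne
      rw [Finset.disjoint_left]
      intro v hv hv'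
      obtain ⟨-, h1, h1', -⟩ := hS.OU x' v hv
      obtain ⟨h2, h2', -, -, h3⟩ := hO2 v hv'
      have hxT : x'.2 ∈ T := by
        rw [hT, mem_filter]
        exact ⟨mem_univ _, h1'.symm.trans h2'⟩
      have h4 := h3 (T.equivFin ⟨x'.2, hxT⟩ : ℕ) (T.equivFin ⟨x'.2, hxT⟩).2
      rw [hOi2] at h4
      apply h4
      have h5 : ((x.1, x'.2) : Ix m w) = x' := by
        rw [← h2, h1]
      rw [h5]
      exact hv
    refine ⟨Function.update M x M', Function.update O x O', ⟨?_, ?_, ?_, ?_, ?_, ?_, ?_, ?_⟩, ?_⟩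
    · intro x' hx'
      rw [mem_insert, not_or] at hx'
      rw [Function.update_of_ne hx'.1]
      exact hS.bot x' hx'.2
    · intro x' v v' h
      by_cases hx : x' = x
      · subst hx
        rw [Function.update_self] at h
        exact ⟨(hM1 h).1, hM3 v v' h⟩
      · rw [Function.update_of_ne hx] at h
        exact hS.le x' v v' h
    · intro x'
      by_cases hx : x' = x
      · subst hx
        rw [Function.update_self]
        exact hM2
      · rw [Function.update_of_ne hx]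
        exact hS.mat x'
    · intro x1 x2 hne v v' h
      by_cases h1 : x1 = x
      · subst h1
        rw [Function.update_self] at h
        rw [Function.update_of_ne (fun h2 => hne h2.symm)]
        exact (hM1 h).2 x2
      · rw [Function.update_of_ne h1] at h
        by_cases h2 : x2 = x
        · subst h2
          rw [Function.update_self]
          intro h3
          exact (hM1 h3).2 x1 h
        · rw [Function.update_of_ne h2]
          exact hS.dis x1 x2 hne v v' h
    · intro x' hx' v hv hvO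
      by_cases hx : x' = x
      · subst hx
        rw [Function.update_self] at hvO ⊢
        exact hM4 v hv hvO
      · rw [Function.update_of_ne hx] at hvO ⊢
        rw [mem_insert] at hx'
        exact hS.cov x' (hx'.resolve_left hx) v hv hvO
    · intro x' v hv
      by_cases hx : x' = x
      · subst hx
        rw [Function.update_self] at hv
        exact ⟨hOx v hv, (hO2 v hv).1, (hO2 v hv).2.1, (hO2 v hv).2.2.1⟩
      · rw [Function.update_of_ne hx] at hv
        exact hS.OU x' v hv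
    · intro x1 x2 hne
      by_cases h1 : x1 = x
      · subst h1
        rw [Function.update_self, Function.update_of_ne (fun h2 => hne h2.symm)]
        exact (hOd x2 (fun h2 => hne h2.symm)).symm
      · rw [Function.update_of_ne h1]
        by_cases h2 : x2 = x
        · subst h2
          rw [Function.update_self]
          exact hOd x1 h1
        · rw [Function.update_of_ne h2]
          exact hS.Od x1 x2 hne
    · intro x'
      by_cases hx : x' = x
      · subst hx
        rw [Function.update_self]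
        exact hO3
      · rw [Function.update_of_ne hx]
        exact hS.spr x'
    · intro x' v hv
      by_cases hx : x' = x
      · subst hx
        rw [Function.update_self] at hv
        exact (hO2 v hv).2.2.2.1
      · rw [Function.update_of_ne hx] at hv
        exact hmM x' v hv

end defs

theorem stmt_P0ALL2 : Stmt_P0ALL2.{u} := by
  intro g gh gd δ n l m r K K1 S ν hg hgh hgd hδ hδ1 hl hm hN hr hK
  have hm0 : (0 : ℝ) < 2 * (m : ℝ) + 1 := by positivity
  have hl0 : (0 : ℝ) < 2 * (l : ℝ) + 1 := by positivity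
  have hr0 : (0 : ℝ) < (r : ℝ) + 1 := by positivity
  have hK0 : (0 : ℝ) < (K : ℝ) + 1 := by positivity
  have hS0 : (0 : ℝ) < (S : ℝ) + 1 := by positivity
  have hn0 : (0 : ℝ) ≤ (n : ℝ) := Nat.cast_nonneg _
  have hs0 : 0 < δ / (10000 * ((2 * (m : ℝ) + 1) * (2 * l + 1))) := by positivity
  refine ⟨δ / (10000 * ((2 * (m : ℝ) + 1) * (2 * l + 1))), δ / 10,
    δ / (10000 * ((2 * (m : ℝ) + 1) * (2 * l + 1))),
    ⌈2 / (δ / (10000 * ((2 * (m : ℝ) + 1) * (2 * l + 1)))) * (2 * ((n : ℝ) + 1))⌉₊, hs0,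
    by positivity, hs0, ?_⟩
  intro V _ G H Q Gc d0 d k w W1 c1 UH c0 EH tu lab e τ ι ρ e1 sy tp pal c wv Nd hd hSit hR hH he
    hV hU hND hmw hτρ hmρ
  set s : ℝ := δ / (10000 * ((2 * (m : ℝ) + 1) * (2 * l + 1))) with hs
  set x0 : ℝ := s * d with hx0
  have hd0 : (0 : ℝ) ≤ d := Nat.cast_nonneg _
  have hd00 : (0 : ℝ) ≤ d0 := Nat.cast_nonneg _
  have h2 : 2 ≤ x0 := by
    have h3 : 2 / s * (2 * ((n : ℝ) + 1)) ≤ (d0 : ℝ) :=
      (Nat.le_ceil _).trans (by exact_mod_cast hd)
    have h4 := hSit.cls.d2D (by linarith)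
    have h5 : 2 / s * (2 * ((n : ℝ) + 1)) ≤ d * (2 * ((n : ℝ) + 1)) := by linarith
    have h6 : 2 / s ≤ (d : ℝ) := le_of_mul_le_mul_right h5 (by positivity)
    rw [div_le_iff₀ hs0] at h6
    linarith
  -- the degree of the graph compared with the degree of the host
  have hdD : (d0 : ℝ) ≤ 100 / 99 * (((n : ℝ) + 1) * d) := by
    have h3 := hSit.cls.le_D
    have h4 : δ / 10 * (d0 : ℝ) ≤ 1 / 100 * d0 := mul_le_mul_of_nonneg_right (by linarith) hd00
    linarith
  have hqd : ∀ t : Option (ZMod 3), (4 : ℝ) / 3 * (d / ((2 * m + 1) * (2 * l + 1))) ≤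
      qr l m S t d := by
    intro t
    have h3 : (4 : ℝ) / 3 * (d / ((2 * m + 1) * (2 * l + 1))) =
        4 * ((S : ℝ) + 1) * pr l m S * d := by
      unfold pr
      field_simp
    rw [h3]
    unfold qr
    have h4 : (0 : ℝ) ≤ pr l m S := by
      unfold pr
      positivity
    have h5 : 4 * ((S : ℝ) + 1) ≤ nr S t := by
      unfold nr
      push_cast
      have h6 : (0 : ℝ) ≤ (np t : ℝ) := Nat.cast_nonneg _
      linarith
    exact mul_le_mul_of_nonneg_right (mul_le_mul_of_nonneg_right h5 h4) hd0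
  have hq : ∀ t : Option (ZMod 3), 4000 * x0 ≤ δ * qr l m S t d := by
    intro t
    have h3 : (10000 : ℝ) * x0 = δ * (d / ((2 * m + 1) * (2 * l + 1))) := by
      rw [hx0, hs]
      field_simp
    have h4 : δ * ((4 : ℝ) / 3 * (d / ((2 * m + 1) * (2 * l + 1)))) ≤ δ * qr l m S t d :=
      mul_le_mul_of_nonneg_left (hqd t) hδ.le
    have h5 : δ * ((4 : ℝ) / 3 * (d / ((2 * m + 1) * (2 * l + 1)))) = 4 / 3 * (10000 * x0) := by
      rw [h3]
      ring
    rw [h5] at h4
    linarith
  have hε : ∀ t : Option (ZMod 3), δ / 10 * qr l m S t d ≤ 1 / 10 * (δ * qr l m S t d) := by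
    intro t
    apply le_of_eq
    ring
  have hfrac : ∀ Y : ℝ, 0 < Y → 10000 * ((n : ℝ) + 1) * (2 * (l : ℝ) + 1) ≤ δ * Y →
      ((n : ℝ) + 1) * ((d : ℝ) / ((2 * m + 1) * Y)) ≤ x0 := by
    intro Y hY hY2
    rw [hx0, hs, ← mul_div_assoc, div_mul_eq_mul_div,
      div_le_div_iff₀ (by positivity) (by positivity)]
    have h3 : (2 * (m : ℝ) + 1) * (10000 * ((n : ℝ) + 1) * (2 * (l : ℝ) + 1)) * d ≤
        (2 * (m : ℝ) + 1) * (δ * Y) * d :=
      mul_le_mul_of_nonneg_right (mul_le_mul_of_nonneg_left hY2 hm0.le) hd0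
    calc ((n : ℝ) + 1) * (d : ℝ) * (10000 * ((2 * m + 1) * (2 * l + 1)))
        = (2 * (m : ℝ) + 1) * (10000 * ((n : ℝ) + 1) * (2 * (l : ℝ) + 1)) * d := by ring
      _ ≤ (2 * (m : ℝ) + 1) * (δ * Y) * d := h3
      _ = δ * d * ((2 * m + 1) * Y) := by ring
  have hfrac1 : ∀ Y : ℝ, 0 < Y → 10000 * ((n : ℝ) + 1) * (2 * (l : ℝ) + 1) ≤ δ * Y →
      (d : ℝ) / ((2 * m + 1) * Y) ≤ x0 := by
    intro Y hY hY2
    have h3 := hfrac Y hY hY2
    have h4 : 0 ≤ (n : ℝ) * ((d : ℝ) / ((2 * m + 1) * Y)) := by positivity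
    linarith
  have hw : (w : ℝ) ≤ 5 / 2 * x0 := by
    have h3 := hfrac (2 * m + 1) hm0 hN
    have hm4 : (4 : ℝ) ≤ m := by exact_mod_cast hm
    have hw0 : (0 : ℝ) ≤ w := Nat.cast_nonneg _
    have h5 : (4 : ℝ) / 9 * w ≤ (d0 : ℝ) / ((2 * m + 1) * (2 * m + 1)) := by
      rw [le_div_iff₀ (by positivity)]
      have h6 : 4 / 9 * (2 * (m : ℝ) + 1) ≤ m := by linarith
      have h7 : (2 * (m : ℝ) + 1) * (4 / 9 * (2 * (m : ℝ) + 1)) * w ≤
          (2 * (m : ℝ) + 1) * m * w :=
        mul_le_mul_of_nonneg_right (mul_le_mul_of_nonneg_left h6 hm0.le) hw0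
      calc 4 / 9 * (w : ℝ) * ((2 * m + 1) * (2 * m + 1))
          = (2 * (m : ℝ) + 1) * (4 / 9 * (2 * (m : ℝ) + 1)) * w := by ring
        _ ≤ (2 * (m : ℝ) + 1) * m * w := h7
        _ ≤ d0 := hmw
    have h6 : (d0 : ℝ) / ((2 * m + 1) * (2 * m + 1)) ≤
        100 / 99 * (((n : ℝ) + 1) * d) / ((2 * m + 1) * (2 * m + 1)) :=
      div_le_div_of_nonneg_right hdD (by positivity)
    have h7 : 100 / 99 * (((n : ℝ) + 1) * d) / ((2 * (m : ℝ) + 1) * (2 * m + 1)) =
        100 / 99 * (((n : ℝ) + 1) * ((d : ℝ) / ((2 * m + 1) * (2 * m + 1)))) := by ring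
    rw [h7] at h6
    linarith
  have hmρ' : ∀ i, m * (univ.filter (fun s => ρ s = i)).card * (3 * (2 * m + 1)) ≤ d0 := by
    intro i
    have h3 : ((m * (univ.filter (fun s => ρ s = i)).card * (3 * (2 * m + 1)) : ℕ) : ℝ) ≤
        (d0 : ℝ) := by
      push_cast
      have h4 := hmρ i
      calc (m : ℝ) * ((univ.filter (fun s => ρ s = i)).card : ℝ) * (3 * (2 * m + 1))
          = (3 * (2 * (m : ℝ) + 1)) * (m * ((univ.filter (fun s => ρ s = i)).card : ℝ)) := by
            ring
        _ ≤ d0 := h4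
    exact_mod_cast h3
  obtain ⟨M, O, hS, hmM⟩ := step2 hR (fun X M O hS x => renv hS hND hSit.labH hSit.bh.deg hSit.bh.low
    hSit.cls.HG hH he hV hU (by omega) x (hq _) (le_refl _) h2 (le_refl _) hw (hfrac1 _ hK0 hK)
    (hfrac1 _ hr0 hr) (hε _)) hτρ hmρ' (univ : Finset (Ix m w))
  exact ⟨M, O, ⟨fun x v v' h => ⟨(hS.le x v v' h).1.1, (hS.le x v v' h).2⟩, hS.mat, hS.dis,
    fun x v hv hvO => hS.cov x (mem_univ _) v hv hvO, hS.OU, hS.Od, hS.spr⟩, hmM⟩

end Pool.Agent.Work.MP_db9399_sw.helper46
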